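import Pool.Agent.H93.PG.Targets
import Pool.Agent.H93.PF.All

/-!
# Power-free shifts, exponents `≥ 2`: rows CX3, GT3, FT3
-/

set_option autoImplicit false

open MeasureTheory Filter Topology Finset Pool.Agent.H93.PF

namespace Pool.Agent.H93.PG

theorem pf_CX3 (hPA3 : T_PA3) : T_CX3 := by
  intro Y _ _ ν _ T d β plus hE hap hOk hks
  set h : ℝ := topEnt (PFS d β plus) with hh
  obtain ⟨h', h1, h2⟩ := EReal.lt_iff_exists_real_btwn.1 hks
  have h2' : h' < h := by exact_mod_cast h2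
  have hh0 : 0 < h' := by
    have h3 := lt_of_le_of_lt (Pool.Agent.H4.PF.ksEnt_nonneg ν T) h1
    exact_mod_cast h3
  set η : ℝ := (h - h') / 3 with hη
  have hη0 : 0 < η := by
    rw [hη]
    linarith
  set δ : ℕ → ℝ := fun j => η / (2 * 16 ^ (j + 1)) with hδ
  have hδ0 : ∀ j, 0 < δ j := fun j => by
    rw [hδ]
    positivity
  obtain ⟨K, P, π, hPm, hPπ, hsep, hP0, hPd⟩ := PF.All.r_PSQ Y ν T h' δ h1 hδ0
  obtain ⟨n₀, hn₀⟩ := PF.All.r_DS2 Y ν T h' δ K P π hE hap hPm hPπ hP0 hPd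
  obtain ⟨tc, Q₀, q, ht1, hq, hQ, hqQ⟩ := hPA3 d β plus hOk h' η n₀ hh0.le hη0
    (by rw [hη]; linarith)
  obtain ⟨D, hDm, hDp, hMk, hD0, hDj⟩ := hn₀ tc.L ht1 tc.L2
  have hQg : ∀ g, (g = tc.L ∨ g = tc.L + 1) → Real.exp (h' * g) ≤ ((Q₀ : ℕ) : ℝ) := by
    intro g hg
    refine le_trans (Real.exp_le_exp.2 ?_) hQ
    refine mul_le_mul_of_nonneg_left ?_ hh0.le
    rcases hg with rfl | rfl
    · linarith
    · push_cast; linarith
  obtain ⟨msg, hmsg1, hmsg2⟩ := PF.All.r_MSG tc.L (K 0) h' (fun _ => Q₀)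
    (fun r => {w : Fin r → Fin (K 0) | Real.exp (-h' * r) ≤ ν.real (cyl T (P 0) w)}) tc.L2
    hh0.le hQg (fun r => PF.All.r_CAR Y ν T (K 0) (P 0) h' r (hPm 0))
  have hL := tc.L2
  obtain ⟨code, hcode1, hcode2⟩ := PF.All.r_COD tc.L q η K π
    (fun j r => {w : Fin r → Fin (K (j + 1)) | 0 < ν.real (cyl T (P (j + 1)) w) ∧
      Real.exp (-(δ j) * r) * ν.real (cyl T (P j) fun i => π j (w i)) ≤
        ν.real (cyl T (P (j + 1)) w)}) (by omega) hη0.le hq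
    (fun j r v => PF.All.r_FIB Y ν T (K j) (K (j + 1)) (P j) (P (j + 1)) (π j) (δ j) r v
      (hPm (j + 1)) (hPπ j))
  have hX2B' := PF.All.r_X2B Y T tc.L D K P code msg q hcode1
  have hM1B' := PF.All.r_M1B Y T (K 0) tc.L (P 0) D (fun _ => Q₀) msg hMk hmsg1
  refine ⟨⟨tc, D, hDm, hMk, ms2 T tc.L D P code msg (2 * q),
    PF.All.r_X2M Y T tc.L D K P code msg (2 * q) hPm hDm,
    fun y hy hyB => lt_of_lt_of_le ((hX2B' y).2.2 _ (hM1B' y hy hyB)) hqQ⟩, hDp, ?_⟩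
  intro y y' hy hy' hAg
  have hob : ob T (Bk T tc.L D 0) y = ob T (Bk T tc.L D 0) y' := hAg.1
  have hag : ∀ s ∈ ob T (Bk T tc.L D 0) y, co T tc.L D (zp T s y) = co T tc.L D (zp T s y') ∧
    ms2 T tc.L D P code msg (2 * q) (zp T s y) =
      ms2 T tc.L D P code msg (2 * q) (zp T s y') := hAg.2
  have hBk := PF.All.r_BKA Y T tc.L D hMk y y' hy hy' hob (fun s hs => (hag s hs).1)
  have hxm : ∀ s ∈ ob T (Bk T tc.L D 0) y,
      xm T tc.L D P code (zp T s y) = xm T tc.L D P code (zp T s y') := by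
    intro s hs
    rw [← (hX2B' (zp T s y)).1, ← (hX2B' (zp T s y')).1, (hag s hs).2]
  have hm1 : ∀ s ∈ ob T (Bk T tc.L D 0) y,
      ms1 T tc.L (P 0) (D 0) msg (zp T s y) = ms1 T tc.L (P 0) (D 0) msg (zp T s y') := by
    intro s hs
    rw [← (hX2B' (zp T s y)).2.1, ← (hX2B' (zp T s y')).2.1, (hag s hs).2]
  have hP0' := PF.All.r_M1D Y T (K 0) tc.L (P 0) D
    (fun r => {w : Fin r → Fin (K 0) | Real.exp (-h' * r) ≤ ν.real (cyl T (P 0) w)}) msg hMk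
    hD0 hmsg2 y y' hy hy' hob hm1
  have hPj := PF.All.r_PJA Y T tc.L D K P π code
    (fun j r => {w : Fin r → Fin (K (j + 1)) | 0 < ν.real (cyl T (P (j + 1)) w) ∧
      Real.exp (-(δ j) * r) * ν.real (cyl T (P j) fun i => π j (w i)) ≤
        ν.real (cyl T (P (j + 1)) w)}) hMk hPπ
    (fun j y hy r hr hr' => by
      have h3 := hDj j y hy r hr hr'
      refine ⟨h3.1, ?_⟩
      have h4 : (fun i : Fin r => π j (P (j + 1) (zp T ((i : ℕ) : ℤ) y))) =
          fun i : Fin r => P j (zp T ((i : ℕ) : ℤ) y) := by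
        funext i
        rw [hPπ j]
      show Real.exp (-(δ j) * r) * ν.real (cyl T (P j)
        (fun i : Fin r => π j (P (j + 1) (zp T ((i : ℕ) : ℤ) y)))) ≤ _
      rw [h4]
      exact h3.2)
    hcode2 y y' hy hy' hBk hxm hP0'
  apply hsep
  intro j
  have h3 := hPj j 0
  rwa [zp_zero, zp_zero] at h3

theorem pf_GT3 (hZM3 : T_ZM3) (hZP3 : T_ZP3) (hZI3 : T_ZI3) : T_GT3 := by
  intro d β plus Y _ _ ν _ T c hT hβ hD hdec
  have hR : ∀ᵐ y ∂ν, Rc T c.D y := by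
    have : ∀ k, ∀ᵐ y ∂ν, ∀ n : ℕ, (∃ j : ℕ, n ≤ j ∧ zp T (j : ℤ) y ∈ c.D k) ∧
        ∃ j : ℕ, n ≤ j ∧ zp T (-(j : ℤ)) y ∈ c.D k :=
      fun k => PF.All.r_REC Y ν T (c.D k) hT (c.Dm k) (hD k)
    filter_upwards [ae_all_iff.2 this] with y hy k n
    exact hy k n
  refine PF.All.r_ISO Y ν T d c.phi {y | Rc T c.D y} (PFS d β plus) hT.toMeasurePreserving
    ?_ ?_ ?_ ?_ ?_
  · refine measurable_pi_iff.2 fun n => ?_
    exact (hZM3 Y T d (mm β plus) c).comp (measurable_zp T n)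
  · intro y
    funext n
    change c.z0 (zp T n (T y)) = c.z0 (zp T (n + 1) y)
    rw [zp_succ]
  · filter_upwards [hR] with y h2
    exact h2
  · intro y hy y' hy' he
    exact hdec y y' hy hy' (hZI3 Y T d (mm β plus) c y y' hy hy' he)
  · filter_upwards [hR] with y hy
    exact hZP3 Y T d β plus c y hβ hy

theorem pf_FT3 (hCX3 : T_CX3) (hGT3 : T_GT3) : T_FT3 := by
  intro d β plus hOk Y _ _ ν _ T hT hap hent
  have h1 : 1 < β := by
    rcases hOk with h | h | h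
    · linarith [h.2]
    · rcases h.2 with h | h
      · linarith
      · linarith [h.1]
    · rcases h.2 with h | h
      · linarith
      · linarith [h.1]
  obtain ⟨c, h2, h3⟩ := hCX3 Y ν T d β plus hT hap hOk hent
  exact hGT3 d β plus Y ν T c hT h1 h2 h3

end Pool.Agent.H93.PG
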