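import Pool.Agent.H1.PG.TA4
import Pool.Agent.H11.PG.TA3
import Pool.Agent.H12.PG.FRA
import Pool.Agent.H13.PG.SA2
import Pool.Agent.H13.PG.TCE
import Pool.Agent.H32.PGS.ME3
import Pool.Agent.H32.PGS.PA3
import Pool.Agent.H40.PG.IJD
import Pool.Agent.H47.PG.JJF
import Pool.Agent.H47.PG.RCG
import Pool.Agent.H47.PG.TCX
import Pool.Agent.H49.PG.NEA
import Pool.Agent.H50.PG.COL
import Pool.Agent.H50.PG.GRO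
import Pool.Agent.H50.PG.TYP
import Pool.Agent.H52.PG.CCD
import Pool.Agent.H52.PG.IJB
import Pool.Agent.H59.PG.TCW
import Pool.Agent.H60.PG.ADR
import Pool.Agent.H60.PG.NLP
import Pool.Agent.H60.PG.OCR
import Pool.Agent.H60.PG.PF3
import Pool.Agent.H60.PG.TZW
import Pool.Agent.H60.PG.ZT3
import Pool.Agent.H63.PG.LVB
import Pool.Agent.H63.PG.MM2
import Pool.Agent.H63.PG.TMB
import Pool.Agent.H63.PG.TMC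
import Pool.Agent.H63.PG.TMO
import Pool.Agent.H63.PG.VTM
import Pool.Agent.H65.PG.LTR
import Pool.Agent.H74.PG.SKX
import Pool.Agent.H75.PG.SPL
import Pool.Agent.H75.PG.SUB
import Pool.Agent.H75.PG.ZI3
import Pool.Agent.H75.PG.ZM3
import Pool.Agent.H79.PG.TA2
import Pool.Agent.H8.PG.SA1
import Pool.Agent.H8.PG.SA2B
import Pool.Agent.H89.PG.SMC
import Pool.Agent.H93.PG.CX3
import Pool.Agent.H93.PG.TRM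
import Pool.Agent.H94.PG.SA2A
import Pool.Agent.H99.PG.OCL
import Pool.Agent.H99.PG.SM3

/-!
# Power-free shifts (`MP_32ebde_an`), exponents `≥ 2`: assembly
-/

set_option autoImplicit false

namespace Pool.Agent.H93.PG.All

theorem r_SUB : Pool.Agent.H93.PG.T_SUB :=
  Pool.Agent.H75.PG.pf_SUB

theorem r_SPL : Pool.Agent.H93.PG.T_SPL :=
  Pool.Agent.H75.PG.pf_SPL

theorem r_GRW : Pool.Agent.H93.PG.T_GRW :=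
  Pool.Agent.H50.PG.pf_GRW r_SUB r_SPL

theorem r_MM2 : Pool.Agent.H93.PG.T_MM2 :=
  Pool.Agent.H63.PG.pf_MM2

theorem r_TMB : Pool.Agent.H93.PG.T_TMB :=
  Pool.Agent.H63.PG.pf_TMB

theorem r_TMO : Pool.Agent.H93.PG.T_TMO :=
  Pool.Agent.H63.PG.pf_TMO r_TMB

theorem r_TMC : Pool.Agent.H93.PG.T_TMC :=
  Pool.Agent.H63.PG.pf_TMC r_TMB

theorem r_TA2 : Pool.Agent.H93.PG.T_TA2 :=
  Pool.Agent.H79.PG.pf_TA2 r_TMB r_TMO r_TMC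

theorem r_TA3 : Pool.Agent.H93.PG.T_TA3 :=
  Pool.Agent.H11.PG.pf_TA3 r_TMB r_TMO r_TMC

theorem r_VTM : Pool.Agent.H93.PG.T_VTM :=
  Pool.Agent.H63.PG.pf_VTM r_TMB r_TMO

theorem r_TA4 : Pool.Agent.H93.PG.T_TA4 :=
  Pool.Agent.H1.PG.pf_TA4 r_TMB r_TMO r_TMC r_VTM

theorem r_SA1 : Pool.Agent.H93.PG.T_SA1 :=
  Pool.Agent.H8.PG.pf_SA1 r_SPL

theorem r_SA2A : Pool.Agent.H93.PG.T_SA2A :=
  Pool.Agent.H94.PG.pf_SA2A r_SPL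

theorem r_SA2B : Pool.Agent.H93.PG.T_SA2B :=
  Pool.Agent.H8.PG.pf_SA2B r_SPL

theorem r_SA2 : Pool.Agent.H93.PG.T_SA2 :=
  Pool.Agent.H13.PG.pf_SA2 r_SUB r_TMB r_TMO r_SA2A r_SA2B

theorem r_TRM : Pool.Agent.H93.PG.T_TRM :=
  Pool.Agent.H93.PG.pf_TRM

theorem r_TRA : Pool.Agent.H93.PG.T_TRA :=
  Pool.Agent.H50.PG.pf_TRA

theorem r_LTR : Pool.Agent.H93.PG.T_LTR :=
  Pool.Agent.H65.PG.pf_LTR r_TRM r_TRA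

theorem r_TYP : Pool.Agent.H93.PG.T_TYP :=
  Pool.Agent.H50.PG.pf_TYP r_SPL

theorem r_COL : Pool.Agent.H93.PG.T_COL :=
  Pool.Agent.H50.PG.pf_COL r_SPL

theorem r_TZW : Pool.Agent.H93.PG.T_TZW :=
  Pool.Agent.H60.PG.pf_TZW

theorem r_FRA : Pool.Agent.H93.PG.T_FRA :=
  Pool.Agent.H12.PG.pf_FRA

theorem r_OCR : Pool.Agent.H93.PG.T_OCR :=
  Pool.Agent.H60.PG.pf_OCR r_FRA

theorem r_JJF : Pool.Agent.H93.PG.T_JJF :=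
  Pool.Agent.H47.PG.pf_JJF

theorem r_OCL : Pool.Agent.H93.PG.T_OCL :=
  Pool.Agent.H99.PG.pf_OCL r_FRA

theorem r_SMC : Pool.Agent.H93.PG.T_SMC :=
  Pool.Agent.H89.PG.pf_SMC r_FRA r_OCL r_OCR

theorem r_SM3 : Pool.Agent.H93.PG.T_SM3 :=
  Pool.Agent.H99.PG.pf_SM3 r_FRA r_JJF r_SMC

theorem r_NEA : Pool.Agent.H93.PG.T_NEA :=
  Pool.Agent.H49.PG.pf_NEA r_OCL r_OCR

theorem r_TCW : Pool.Agent.H93.PG.T_TCW :=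
  Pool.Agent.H59.PG.pf_TCW r_TZW r_OCR r_SM3 r_NEA

theorem r_TCE : Pool.Agent.H93.PG.T_TCE :=
  Pool.Agent.H13.PG.pf_TCE r_LTR r_TYP r_COL r_TCW

theorem r_TCX : Pool.Agent.H93.PG.T_TCX :=
  Pool.Agent.H47.PG.pf_TCX r_GRW r_MM2 r_TA2 r_TA3 r_TA4 r_SA1 r_SA2 r_TCE

theorem r_PA3 : Pool.Agent.H93.PG.T_PA3 :=
  Pool.Agent.H32.PGS.pf_PA3 r_TCX

theorem r_CX3 : Pool.Agent.H93.PG.T_CX3 :=
  Pool.Agent.H93.PG.pf_CX3 r_PA3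

theorem r_ME3 : Pool.Agent.H93.PG.T_ME3 :=
  Pool.Agent.H32.PGS.pf_ME3

theorem r_ZM3 : Pool.Agent.H93.PG.T_ZM3 :=
  Pool.Agent.H75.PG.pf_ZM3 r_ME3

theorem r_PF3 : Pool.Agent.H93.PG.T_PF3 :=
  Pool.Agent.H60.PG.pf_PF3

theorem r_ADR : Pool.Agent.H93.PG.T_ADR :=
  Pool.Agent.H60.PG.pf_ADR

theorem r_IJB : Pool.Agent.H93.PG.T_IJB :=
  Pool.Agent.H52.PG.pf_IJB

theorem r_RCG : Pool.Agent.H93.PG.T_RCG :=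
  Pool.Agent.H47.PG.pf_RCG

theorem r_SKX : Pool.Agent.H93.PG.T_SKX :=
  Pool.Agent.H74.PG.pf_SKX r_ADR r_RCG

theorem r_IJD : Pool.Agent.H93.PG.T_IJD :=
  Pool.Agent.H40.PG.pf_IJD

theorem r_LVB : Pool.Agent.H93.PG.T_LVB :=
  Pool.Agent.H63.PG.pf_LVB

theorem r_CCD : Pool.Agent.H93.PG.T_CCD :=
  Pool.Agent.H52.PG.pf_CCD

theorem r_NLP : Pool.Agent.H93.PG.T_NLP :=
  Pool.Agent.H60.PG.pf_NLP r_ADR r_IJB r_SKX r_IJD r_LVB r_CCD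

theorem r_ZT3 : Pool.Agent.H93.PG.T_ZT3 :=
  Pool.Agent.H60.PG.pf_ZT3 r_CCD

theorem r_ZP3 : Pool.Agent.H93.PG.T_ZP3 :=
  Pool.Agent.H32.PGS.pf_ZP3 r_PF3 r_NLP r_ZT3

theorem r_ZI3 : Pool.Agent.H93.PG.T_ZI3 :=
  Pool.Agent.H75.PG.pf_ZI3 r_ZT3 r_CCD

theorem r_GT3 : Pool.Agent.H93.PG.T_GT3 :=
  Pool.Agent.H93.PG.pf_GT3 r_ZM3 r_ZP3 r_ZI3

theorem r_FT3 : Pool.Agent.H93.PG.T_FT3 :=
  Pool.Agent.H93.PG.pf_FT3 r_CX3 r_GT3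

end Pool.Agent.H93.PG.All
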