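import Pool.Agent.H93.PG.Defs

/-!
# Power-free shifts (`MP_32ebde_an`), exponents `≥ 2`: the coding
-/

set_option autoImplicit false

open MeasureTheory Filter Topology Finset

namespace Pool.Agent.H93.PG

open Pool.Agent.H93.PF

/-- the data of the coding: `ms y` is the message of the tile which starts at `y` -/
structure Cy {Y : Type} [MeasurableSpace Y] (T : Y ≃ᵐ Y) (d : ℕ) (m : ℕ → ℕ) where
  tc : TC d m NC
  D : ℕ → Set Y
  Dm : ∀ k, MeasurableSet (D k)
  mkD : Mk T tc.L D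
  ms : Y → ℕ
  msm : Measurable ms
  msb : ∀ y, Rc T D y → y ∈ Bk T tc.L D 0 → ms y < tc.Q

namespace Cy

variable {Y : Type} [MeasurableSpace Y] {T : Y ≃ᵐ Y} {d : ℕ} {m : ℕ → ℕ} (c : Cy T d m)

/-- the starts of the tiles -/
noncomputable def B0 : Set Y := Bk T c.tc.L c.D 0

/-- the colour -/
noncomputable def cl (y : Y) : ℕ := cc T c.tc.L c.D y

/-- the letter at the time `0` -/
noncomputable def z0 (y : Y) : Fin d :=
  if h : la T c.B0 y < na T c.B0 (zp T (-(la T c.B0 y : ℤ)) y) then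
    c.tc.W (na T c.B0 (zp T (-(la T c.B0 y : ℤ)) y)) (c.cl (zp T (-(la T c.B0 y : ℤ)) y))
      (c.ms (zp T (-(la T c.B0 y : ℤ)) y)) ⟨la T c.B0 y, h⟩
  else c.tc.M 0

/-- the coding map -/
noncomputable def phi (y : Y) : ℤ → Fin d := fun n => c.z0 (zp T n y)

/-- the tiles, the colours and the messages of `y` and `y'` agree -/
def Ag (y y' : Y) : Prop :=
  ob T c.B0 y = ob T c.B0 y' ∧ ∀ s ∈ ob T c.B0 y,
    co T c.tc.L c.D (zp T s y) = co T c.tc.L c.D (zp T s y') ∧
    c.ms (zp T s y) = c.ms (zp T s y')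

end Cy

end Pool.Agent.H93.PG
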