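import Pool.Agent.H93.PF.SKF

/-!
# Power-free shifts (`MP_32ebde_an`), exponents `≥ 2`: definitions

The paper proof is the page `H93_PG.md` of the team store.
-/

set_option autoImplicit false

open MeasureTheory Filter Topology Finset

namespace Pool.Agent.H93.PG

open Pool.Agent.H93.PF

/-! ### 1. The pairs `(d, β)` -/

/-- `d ≥ 4` and `β ≥ 2`; `d ≥ 3` and `β > 2` or `2⁺`; `d ≥ 2` and `β > 3` or `3⁺` -/
def Ok (d : ℕ) (β : ℝ) (plus : Bool) : Prop :=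
  (4 ≤ d ∧ 2 ≤ β) ∨ (3 ≤ d ∧ (2 < β ∨ (2 ≤ β ∧ plus = true))) ∨
    (2 ≤ d ∧ (3 < β ∨ (3 ≤ β ∧ plus = true)))

/-! ### 2. Growth -/

/-- the growth rate of the number of the words is `H` -/
structure Gr (d : ℕ) (m : ℕ → ℕ) (H : ℝ) : Prop where
  low : ∀ n : ℕ, Real.exp (H * n) ≤ ((FF d m n).card : ℝ)
  upp : ∀ δ : ℝ, 0 < δ → ∃ C : ℝ, ∀ n : ℕ,
    ((FF d m n).card : ℝ) ≤ C * Real.exp ((H + δ) * n)

/-- `u n` is not bounded by `C exp ((H - ε) n)` -/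
def Rich (H : ℝ) (u : ℕ → ℕ) : Prop :=
  ∀ ε : ℝ, 0 < ε → ∀ C : ℝ, ∃ n : ℕ, C * Real.exp ((H - ε) * n) < (u n : ℝ)

/-! ### 3. Tails -/

/-- no forbidden repetition inside of `[i, j)` -/
def Fr {A : Type} (m : ℕ → ℕ) (z : ℤ → A) (i j : ℤ) : Prop :=
  ∀ (q : ℕ) (x : ℤ), 0 < q → i ≤ x → x + m q ≤ j →
    ∃ t : ℤ, x ≤ t ∧ t + q < x + m q ∧ z (t + q) ≠ z t

/-- the word `y[0, Y)` followed by `rt` -/
def xx {A : Type} (Y : ℕ) (y rt : ℕ → A) (i : ℕ) : A := if i < Y then y i else rt (i - Y)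

/-- a marker word `y[0, Y)` and a tail `rt` -/
structure Tail (d : ℕ) (m : ℕ → ℕ) where
  Y : ℕ
  y : ℕ → Fin d
  rt : ℕ → Fin d
  Y0 : 0 < Y
  m2 : ∀ q, 0 < q → 2 * q ≤ m q
  c1 : ∀ q i, 0 < q → ∃ j, i ≤ j ∧ j + q < i + m q ∧ xx Y y rt (j + q) ≠ xx Y y rt j
  c2 : ∀ i, 0 < i → ∃ j, j < Y ∧ xx Y y rt (i + j) ≠ y j
  c3 : ∀ q, 0 < q → 2 * q + Y ≤ m q + 1 ∨
    ∃ j, j + q < max (Y + 1) (m q - q + 1) ∧ xx Y y rt (j + q) ≠ xx Y y rt j
  cp : ∀ k, 0 < k → (Set.range fun (i : ℕ) (j : Fin k) => rt (i + (j : ℕ))).ncard ≤ 8 * (k + 1)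

section tails

variable {d : ℕ} {m : ℕ → ℕ} (t : Tail d m)

/-- the word `w` on `[0, n)`, followed by the tail and preceded by the reversed tail -/
def ex {n : ℕ} (w : Fin n → Fin d) (x : ℤ) : Fin d :=
  if h : 0 ≤ x ∧ x < n then w ⟨x.toNat, by omega⟩ else
    if x < 0 then t.rt (-1 - x).toNat else t.rt (x - n).toNat

/-- `w` followed by the tail has no forbidden repetition -/
def RG {n : ℕ} (w : Fin n → Fin d) : Prop := ∀ j : ℕ, Fr m (ex t w) 0 (n + j)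

/-- `w` preceded by the reversed tail has no forbidden repetition -/
def LG {n : ℕ} (w : Fin n → Fin d) : Prop := ∀ j : ℕ, Fr m (ex t w) (-j) n

/-- `w` starts with the reversed marker word -/
def St {n : ℕ} (w : Fin n → Fin d) : Prop :=
  ∀ (i : ℕ) (h : i < n), i < t.Y → w ⟨i, h⟩ = t.y (t.Y - 1 - i)

/-- `w` ends with the marker word -/
def En {n : ℕ} (w : Fin n → Fin d) : Prop :=
  t.Y ≤ n ∧ ∀ (i : ℕ) (h : n - t.Y + i < n), i < t.Y → w ⟨n - t.Y + i, h⟩ = t.y i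

/-- `w` contains no factor of length `K` of the tail, and no reversed one -/
def T1 (K : ℕ) {n : ℕ} (w : Fin n → Fin d) : Prop :=
  ∀ i j : ℕ, i + K ≤ n →
    (¬ ∀ (x : ℕ) (h : i + x < n), x < K → w ⟨i + x, h⟩ = t.rt (j + x)) ∧
    ¬ ∀ (x : ℕ) (h : i + x < n), x < K → w ⟨i + x, h⟩ = t.rt (j + (K - 1 - x))

/-- `w` has no period `≤ 5 n / 8` -/
def T2 {n : ℕ} (w : Fin n → Fin d) : Prop := ∀ q : ℕ, 0 < q → 8 * q ≤ 5 * n → ¬ Per w q 0 n

open Classical in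
/-- words without forbidden repetitions which start with the reversed marker word and end with
the marker word -/
noncomputable def NN (n : ℕ) : Finset (Fin n → Fin d) :=
  univ.filter fun w => Gd m w ∧ St t w ∧ En t w

open Classical in
/-- those which can be continued by the tail on both sides -/
noncomputable def PP (n : ℕ) : Finset (Fin n → Fin d) :=
  univ.filter fun w => Gd m w ∧ St t w ∧ En t w ∧ LG t w ∧ RG t w

open Classical in
/-- the typical ones -/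
noncomputable def VV (K n : ℕ) : Finset (Fin n → Fin d) :=
  univ.filter fun w => Gd m w ∧ St t w ∧ En t w ∧ LG t w ∧ RG t w ∧ T1 t K w ∧ T2 w

open Classical in
/-- words of the class `P` which end with the marker word and can be continued by `j` letters
of the tail -/
noncomputable def AA (P : (n : ℕ) → (Fin n → Fin d) → Prop) (n j : ℕ) : ℕ :=
  (univ.filter fun w : Fin n → Fin d => Gd m w ∧ P n w ∧ En t w ∧ Fr m (ex t w) 0 (n + j)).card

open Classical in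
/-- words of the class `P` which end with the marker word and can be continued by the tail -/
noncomputable def G0 (P : (n : ℕ) → (Fin n → Fin d) → Prop) (n : ℕ) : ℕ :=
  (univ.filter fun w : Fin n → Fin d => Gd m w ∧ P n w ∧ En t w ∧ RG t w).card

/-- `N` colour classes of typical words of length `n`: the first `K` letters, and the last `K`
letters, determine the class -/
structure CC (K n N Q : ℕ) (pc : ℕ → ℕ → (Fin n → Fin d)) : Prop where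
  mem : ∀ c k, c < N → k < Q → pc c k ∈ VV t K n
  inj : ∀ c k c' k', c < N → k < Q → c' < N → k' < Q → pc c k = pc c' k' → c = c' ∧ k = k'
  pre : ∀ c k c' k', c < N → k < Q → c' < N → k' < Q →
    (∀ (x : ℕ) (h : x < n), x < K → pc c k ⟨x, h⟩ = pc c' k' ⟨x, h⟩) → c = c'
  suf : ∀ c k c' k', c < N → k < Q → c' < N → k' < Q →
    (∀ (x : ℕ) (h : x < n), n ≤ x + K → pc c k ⟨x, h⟩ = pc c' k' ⟨x, h⟩) → c = c'

end tails

/-! ### 4. Frames -/

/-- the lengths of the pieces of the frames: `rt[0, N0)` (short frame), and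
`rt[0, k1) e^Y rev(rt[0, k2))` (long frame) -/
structure Frm {d : ℕ} {m : ℕ → ℕ} (t : Tail d m) (e : Fin d) (K N0 k1 k2 : ℕ) : Prop where
  sz : N0 ≤ 1000 * (K + 1)
  b0 : 2 * K ≤ N0
  b1 : 2 * K ≤ k1
  b2 : 2 * K ≤ k2
  len : k1 + k2 + t.Y = N0 + 1
  pal : ∀ i, i < N0 → t.rt (N0 - 1 - i) = t.rt i
  nx : ∀ i, i + 1 < t.Y → t.rt (N0 + i) = e ∧ t.rt (k1 + i) = e ∧ t.rt (k2 + i) = e
  l1 : t.rt (k1 - 1) ≠ e
  l2 : t.rt (k2 - 1) ≠ e
  d1 : ∃ x, x < K ∧ t.rt (k1 - 1 - x) ≠ t.rt x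
  d2 : ∃ x, x < K ∧ t.rt (k2 - 1 - x) ≠ t.rt x

/-- a tail with a constant marker word and with frames -/
structure CT (d : ℕ) (m : ℕ → ℕ) where
  t : Tail d m
  e : Fin d
  ye : ∀ i, t.y i = e
  e0 : t.rt 0 ≠ e
  my : ∀ q, 0 < q → 2 * q + t.Y ≤ m q + 1
  frm : ∀ K : ℕ, 2 ≤ K → ∃ N0 k1 k2, Frm t e K N0 k1 k2

/-- the data of the tiles -/
structure TD {d : ℕ} {m : ℕ → ℕ} (c : CT d m) where
  K : ℕ
  n : ℕ
  N : ℕ
  Q : ℕ
  N0 : ℕ
  k1 : ℕ
  k2 : ℕ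
  K2 : 2 ≤ K
  fr : Frm c.t c.e K N0 k1 k2
  pc : ℕ → ℕ → (Fin n → Fin d)
  cc : CC c.t K n N Q pc
  big : 16 * (N0 + c.t.Y + K) ≤ n

section tiles

variable {d : ℕ} {m : ℕ → ℕ} {c : CT d m} (D : TD c)

/-- length of the short tiles -/
def TD.L : ℕ := D.n + D.N0

/-- the visible part of the tiles -/
def TD.kv : ℕ := c.t.Y + D.N0 + 1 + D.K

/-- the tiles: `e^Y`, frame, content without the last `Y` letters -/
def TD.W (g a k : ℕ) : Fin g → Fin d := fun x =>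
  if (x : ℕ) < c.t.Y then c.e else
    if g = D.L then
      (if (x : ℕ) < c.t.Y + D.N0 then c.t.rt (x - c.t.Y) else
        if h : (x : ℕ) - (c.t.Y + D.N0) < D.n then D.pc a k ⟨x - (c.t.Y + D.N0), h⟩ else c.e)
    else
      (if (x : ℕ) < c.t.Y + D.k1 then c.t.rt (x - c.t.Y) else
        if (x : ℕ) < 2 * c.t.Y + D.k1 then c.e else
          if (x : ℕ) < c.t.Y + D.N0 + 1 then c.t.rt (D.k2 - 1 - (x - (2 * c.t.Y + D.k1))) else
            if h : (x : ℕ) - (c.t.Y + D.N0 + 1) < D.n then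
              D.pc a k ⟨x - (c.t.Y + D.N0 + 1), h⟩ else c.e)

/-- the tiled sequences: the tile which starts at `s` has the colour `col s`; the content of the
tile `[s, s + g)` is the window of length `n` which ends at `s + g + Y` -/
structure Tz (B : Set ℤ) (z : ℤ → Fin d) (col : ℤ → ℕ) : Prop where
  below : ∀ i : ℤ, ∃ s ∈ B, s ≤ i
  next : ∀ s ∈ B, ∃ g : ℕ, (g = D.L ∨ g = D.L + 1) ∧ Nx B s g
  y0 : ∀ s ∈ B, ∀ i : ℕ, i < c.t.Y → z (s + i) = c.e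
  fs : ∀ s ∈ B, Nx B s D.L → ∀ i : ℕ, i < D.N0 → z (s + c.t.Y + i) = c.t.rt i
  f1 : ∀ s ∈ B, Nx B s (D.L + 1) → ∀ i : ℕ, i < D.k1 → z (s + c.t.Y + i) = c.t.rt i
  f2 : ∀ s ∈ B, Nx B s (D.L + 1) → ∀ i : ℕ, i < c.t.Y → z (s + c.t.Y + D.k1 + i) = c.e
  f3 : ∀ s ∈ B, Nx B s (D.L + 1) → ∀ i : ℕ, i < D.k2 →
    z (s + 2 * c.t.Y + D.k1 + i) = c.t.rt (D.k2 - 1 - i)
  pp : ∀ s ∈ B, ∀ g : ℕ, Nx B s g → col s < D.N ∧
    ∃ k < D.Q, win z (s + g + c.t.Y - D.n) D.n = D.pc (col s) k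

end tiles

/-! ### 5. Tiles, abstractly -/

/-- tilings with the tiles `W g c k` (length `g`, colour `c`, message `k`) -/
structure TT {d : ℕ} (N L Q : ℕ) (W : (g : ℕ) → ℕ → ℕ → (Fin g → Fin d)) (B : Set ℤ)
    (z : ℤ → Fin d) (col : ℤ → ℕ) : Prop where
  below : ∀ i : ℤ, ∃ s ∈ B, s ≤ i
  next : ∀ s ∈ B, ∃ g : ℕ, (g = L ∨ g = L + 1) ∧ Nx B s g
  cont : ∀ s ∈ B, ∀ g : ℕ, Nx B s g → col s < N ∧ ∃ k < Q, win z s g = W g (col s) k

/-- good tiles, with `N` colours -/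
structure TC (d : ℕ) (m : ℕ → ℕ) (N : ℕ) where
  L : ℕ
  R : ℕ
  kv : ℕ
  Q : ℕ
  L2 : 2 ≤ L
  R0 : 0 < R
  Rk : R ≤ kv
  kL : 2 * kv ≤ L
  m2 : ∀ q, 0 < q → 2 * q ≤ m q
  M : ℕ → Fin d
  W : (g : ℕ) → ℕ → ℕ → (Fin g → Fin d)
  mkr : ∀ g, (g = L ∨ g = L + 1) → ∀ c k, c < N → k < Q → ∀ (j : ℕ) (h : j < g), j < R →
    W g c k ⟨j, h⟩ = M j
  inj : ∀ g, (g = L ∨ g = L + 1) → ∀ c k c' k', c < N → k < Q → c' < N → k' < Q →
    W g c k = W g c' k' → c = c' ∧ k = k'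
  vis : ∀ g g', (g = L ∨ g = L + 1) → (g' = L ∨ g' = L + 1) → ∀ c k c' k', c < N → k < Q →
    c' < N → k' < Q →
    (∀ (j : ℕ) (h : j < g) (h' : j < g'), j < kv → W g c k ⟨j, h⟩ = W g' c' k' ⟨j, h'⟩) → c = c'
  uniq : ∀ (B : Set ℤ) (z : ℤ → Fin d) (col : ℤ → ℕ), TT N L Q W B z col → ∀ p : ℤ,
    (∀ j : ℕ, j < R → z (p + j) = M j) → p ∈ B
  small : ∀ (B : Set ℤ) (z : ℤ → Fin d) (col : ℤ → ℕ), TT N L Q W B z col →
    (∀ s ∈ B, ∀ g : ℕ, Nx B s g → col (s + g) ≠ col s) → ∀ q : ℕ, 0 < q → q < L + kv →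
    ∀ i : ℤ, ∃ j : ℤ, i ≤ j ∧ j + q < i + m q ∧ z (j + q) ≠ z j

/-! ### 6. The sequences of Thue and Morse -/

/-- auxiliary function, with fuel -/
def tmf : ℕ → ℕ → Bool
  | 0, _ => false
  | k + 1, n => xor (n % 2 == 1) (tmf k (n / 2))

/-- the Thue-Morse sequence -/
def tm (n : ℕ) : Bool := tmf n n

/-- the ternary Thue-Morse sequence -/
def vt (n : ℕ) : ℕ := (tm (n + 1)).toNat + 1 - (tm n).toNat

/-! ### 7. The colours -/

/-- `I j s` is the number of the points of `B j` after the last point of `B (j + 1)`, up to `s` -/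
def IJ (B : ℕ → Set ℤ) (I : ℕ → ℤ → ℕ) : Prop :=
  ∀ (j : ℕ) (s t : ℤ), t ∈ B (j + 1) → t ≤ s → (∀ x, t < x → x ≤ s → x ∉ B (j + 1)) →
    I j s = cnt (B j) t s

section colours

variable {Y : Type} [MeasurableSpace Y] (T : Y ≃ᵐ Y)

open Classical in
/-- number of the points of `Bk j` since the last point of `Bk (j + 1)` -/
noncomputable def ij (L : ℕ) (D : ℕ → Set Y) (j : ℕ) (y : Y) : ℕ :=
  ((range (la T (Bk T L D (j + 1)) y)).filter
    fun i : ℕ => zp T (-(i : ℤ)) y ∈ Bk T L D j).card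

/-- the number of the colours -/
def NC : ℕ := 3 * 40 ^ 5

/-- the colour: exact level mod 3 and index (as before), and four further indices -/
noncomputable def cc (L : ℕ) (D : ℕ → Set Y) (y : Y) : ℕ :=
  (co T L D y).1 + 3 * ((co T L D y).2 + 40 * (min (ij T L D (lv T L D y + 1) y) 39 +
    40 * (min (ij T L D (lv T L D y + 2) y) 39 + 40 * (min (ij T L D 0 y) 39 +
      40 * min (ij T L D 1 y) 39))))

end colours

end Pool.Agent.H93.PG
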