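import Pool.Agent.H93.PG.Targets

/-!
# Power-free shifts, exponents `≥ 2`: trimming
-/

set_option autoImplicit false

open MeasureTheory Filter Topology Finset Pool.Agent.H93.PF

namespace Pool.Agent.H93.PG

section

variable {d : ℕ} {m : ℕ → ℕ} (t : Tail d m)

theorem ex_in {n : ℕ} (w : Fin n → Fin d) (x : ℕ) (h : x < n) : ex t w (x : ℤ) = w ⟨x, h⟩ := by
  unfold ex
  rw [dif_pos ⟨by omega, by omega⟩]
  rfl

theorem ex_in' {n : ℕ} (w : Fin n → Fin d) (x : ℤ) (h0 : 0 ≤ x) (h : x < n) :
    ex t w x = w ⟨x.toNat, by omega⟩ := by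
  unfold ex
  rw [dif_pos ⟨h0, h⟩]

theorem ex_right {n : ℕ} (w : Fin n → Fin d) (i : ℕ) : ex t w ((n : ℤ) + i) = t.rt i := by
  unfold ex
  rw [dif_neg (by omega), if_neg (by omega)]
  congr 1
  omega

theorem ex_left {n : ℕ} (w : Fin n → Fin d) (i : ℕ) : ex t w (-1 - (i : ℤ)) = t.rt i := by
  unfold ex
  rw [dif_neg (by omega), if_pos (by omega)]
  congr 1
  omega

/-- the end of `w` followed by the tail -/
theorem ex_xx {n : ℕ} (w : Fin n → Fin d) (hE : En t w) (i : ℕ) :
    ex t w ((n : ℤ) - t.Y + i) = xx t.Y t.y t.rt i := by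
  obtain ⟨hY, hw⟩ := hE
  unfold xx
  split_ifs with h
  · have h1 : ((n : ℤ) - t.Y + i) = ((n - t.Y + i : ℕ) : ℤ) := by omega
    rw [h1, ex_in t w _ (by omega), hw i (by omega) h]
  · have h1 : ((n : ℤ) - t.Y + i) = (n : ℤ) + ((i - t.Y : ℕ) : ℤ) := by omega
    rw [h1, ex_right]

theorem fr_of_gd {n : ℕ} (w : Fin n → Fin d) (hG : Gd m w) (z : ℤ → Fin d)
    (hz : ∀ x : ℕ, (h : x < n) → z x = w ⟨x, h⟩) (j : ℤ) (hj : j ≤ n) : Fr m z 0 j := by
  intro q x hq hx hxj
  obtain ⟨x, rfl⟩ := Int.eq_ofNat_of_zero_le hx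
  by_contra hc
  push Not at hc
  refine hG q x hq (by omega) ?_
  intro s hs h1 h2
  have h3 := hc s (by omega) (by omega)
  rw [hz s (by omega), show ((s : ℤ) + q) = ((s + q : ℕ) : ℤ) by push_cast; ring,
    hz (s + q) hs] at h3
  exact h3

/-- the trimming lemma -/
theorem trim {n : ℕ} (w : Fin n → Fin d) (hE : En t w) (j : ℕ)
    (hF : Fr m (ex t w) 0 (n + j)) (hR : ¬ RG t w) :
    ∃ r ρ : ℕ, j + 1 ≤ ρ ∧ ρ + 1 ≤ r ∧ r + t.Y ≤ n ∧ 0 < r ∧
      (n : ℤ) + ρ - m r + r + t.Y ≤ n ∧ 0 ≤ (n : ℤ) + ρ - m r ∧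
      ∀ x : ℤ, (n : ℤ) + ρ - m r ≤ x → x + r < n + ρ → ex t w (x + r) = ex t w x := by
  classical
  unfold RG at hR
  push Not at hR
  have hR' : ∃ ρ : ℕ, ¬ Fr m (ex t w) 0 (n + ρ) := hR
  obtain ⟨ρ, hρ, hmin⟩ : ∃ ρ : ℕ, ¬ Fr m (ex t w) 0 (n + ρ) ∧
      ∀ i : ℕ, i < ρ → Fr m (ex t w) 0 (n + i) :=
    ⟨Nat.find hR', Nat.find_spec hR', fun i hi => not_not.1 (Nat.find_min hR' hi)⟩
  have hjρ : j < ρ := by
    by_contra hc
    refine hρ ?_
    intro q x hq hx hxj
    exact hF q x hq hx (by omega)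
  unfold Fr at hρ
  push Not at hρ
  obtain ⟨r, x, hr, hx0, hx1, hper⟩ := hρ
  have hx2 : x + m r = n + ρ := by
    by_contra hc
    obtain ⟨s, h1, h2, h3⟩ := hmin (ρ - 1) (by omega) r x hr hx0 (by omega)
    exact h3 (hper s h1 h2)
  have hY := hE.1
  have hX := fun i => ex_xx t w hE i
  -- the repetition starts before the marker word
  have hx3 : x < n - t.Y := by
    by_contra hc
    obtain ⟨i, hi⟩ := Int.eq_ofNat_of_zero_le (a := x - (n - t.Y)) (by omega)
    obtain ⟨s, h1, h2, h3⟩ := t.c1 r i hr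
    apply h3
    rw [← hX, ← hX]
    have h4 := hper ((n : ℤ) - t.Y + s) (by omega) (by omega)
    rw [← h4]
    congr 1
    push_cast
    ring
  have hρr : ρ + 1 ≤ r := by
    by_contra hc
    obtain ⟨i, h1, h2⟩ := t.c2 r hr
    apply h2
    rw [← hX]
    have h4 := hper ((n : ℤ) - t.Y + i) (by omega) (by omega)
    have h5 : xx t.Y t.y t.rt i = t.y i := by
      unfold xx
      rw [if_pos h1]
    rw [← h5, ← hX, ← h4]
    congr 1
    push_cast
    ring
  have hlam : x + r + t.Y ≤ n := by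
    by_contra hc
    rcases t.c3 r hr with h | ⟨i, h1, h2⟩
    · omega
    · apply h2
      rw [← hX, ← hX]
      have h3 : i + r < t.Y + ρ := by
        rcases lt_max_iff.1 h1 with h | h <;> omega
      have h4 := hper ((n : ℤ) - t.Y + i) (by omega) (by omega)
      rw [← h4]
      congr 1
      push_cast
      ring
  refine ⟨r, ρ, by omega, hρr, by omega, hr, by omega, by omega, ?_⟩
  intro y hy1 hy2
  exact hper y (by omega) (by omega)

/-- the word with the given trimmed word -/
def bld (n r ρ : ℕ) (v : Fin (n - r) → Fin d) : Fin n → Fin d := fun p =>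
  if h : (p : ℕ) < n - r then v ⟨p, h⟩ else
    if (p : ℕ) < n - r + ρ then t.rt (p - (n - r)) else
      if h' : (p : ℕ) - r < n - r then v ⟨p - r, h'⟩ else t.rt 0

end

theorem pf_TRM : T_TRM := by
  classical
  intro d m t P hP n j
  unfold AA G0
  set A := univ.filter fun w : Fin n → Fin d =>
    Gd m w ∧ P n w ∧ En t w ∧ Fr m (ex t w) 0 (n + j) with hA
  set G := univ.filter fun w : Fin n → Fin d => Gd m w ∧ P n w ∧ En t w ∧ RG t w with hG
  let S : (r : ℕ) → Finset (Fin (n - r) → Fin d) := fun r =>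
    univ.filter fun w : Fin (n - r) → Fin d =>
      Gd m w ∧ P (n - r) w ∧ En t w ∧ Fr m (ex t w) 0 ((n - r : ℕ) + (j + 1 : ℕ))
  have hsub : A ⊆ G ∪ (Icc (j + 2) n).biUnion fun r => (range r).biUnion fun ρ =>
      (S r).image (bld t n r ρ) := by
    intro w hw
    rw [hA, mem_filter] at hw
    obtain ⟨-, h1, h2, h3, h4⟩ := hw
    rw [mem_union]
    by_cases h5 : RG t w
    · left
      rw [hG, mem_filter]
      exact ⟨mem_univ _, h1, h2, h3, h5⟩
    right
    obtain ⟨r, ρ, g1, g2, g3, g4, g5, g6, g7⟩ := trim t w h3 j h4 h5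
    have hmr := t.m2 r g4
    rw [mem_biUnion]
    refine ⟨r, mem_Icc.2 ⟨by omega, by omega⟩, ?_⟩
    rw [mem_biUnion]
    refine ⟨ρ, mem_range.2 (by omega), ?_⟩
    rw [mem_image]
    -- the prefix
    let v : Fin (n - r) → Fin d := fun i => w ⟨i, by omega⟩
    have hval : ∀ (i : ℕ) (h : i < n - r), v ⟨i, h⟩ = w ⟨i, by omega⟩ := fun i h => rfl
    have hcp : ∀ i : ℕ, (_ : i < ρ) → w ⟨n - r + i, by omega⟩ = t.rt i := by
      intro i hi
      have h6 := g7 ((n - r + i : ℕ) : ℤ) (by omega) (by omega)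
      rw [ex_in t w (n - r + i) (by omega)] at h6
      rw [← h6, ← ex_right t w i]
      congr 1
      omega
    have hvex : ∀ x : ℕ, (h : x < n - r + ρ) → ex t v x = w ⟨x, by omega⟩ := by
      intro x hx
      rcases lt_or_ge x (n - r) with h | h
      · rw [ex_in t v x h]
      · have h6 : (x : ℤ) = ((n - r : ℕ) : ℤ) + ((x - (n - r) : ℕ) : ℤ) := by omega
        rw [h6, ex_right, ← hcp (x - (n - r)) (by omega)]
        congr 1
        apply Fin.ext
        show n - r + (x - (n - r)) = x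
        omega
    refine ⟨v, ?_, ?_⟩
    · show v ∈ univ.filter _
      rw [mem_filter]
      refine ⟨mem_univ _, ?_, hP n (n - r) (by omega) w h2, ⟨by omega, ?_⟩, ?_⟩
      · -- Gd
        intro q i hq hi hper
        refine h1 q i hq (by omega) ?_
        intro s hs e1 e2
        exact hper s (by omega) e1 e2
      · -- En
        intro i hi hiY
        rw [hval]
        have h6 := h3.2 i (by omega) hiY
        rw [← h6]
        have h7 := g7 ((n - r - t.Y + i : ℕ) : ℤ) (by omega) (by omega)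
        rw [ex_in t w (n - r - t.Y + i) (by omega)] at h7
        rw [← h7, ← ex_in t w (n - t.Y + i) (by omega)]
        congr 1
        omega
      · -- Fr
        intro q x hq hx hxj
        obtain ⟨x, rfl⟩ := Int.eq_ofNat_of_zero_le hx
        by_contra hc
        push Not at hc
        refine h1 q x hq (by omega) ?_
        intro s hs e1 e2
        have h6 := hc s (by omega) (by omega)
        rw [hvex s (by omega), show ((s : ℤ) + q) = ((s + q : ℕ) : ℤ) by push_cast; ring,
          hvex (s + q) (by omega)] at h6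
        exact h6
    · -- bld
      funext ⟨p, hp⟩
      unfold bld
      dsimp only
      split_ifs with e1 e2 e3
      · rfl
      · have h6 := hcp (p - (n - r)) (by omega)
        rw [← h6]
        congr 1
        apply Fin.ext
        show n - r + (p - (n - r)) = p
        omega
      · rw [hval]
        have h6 := g7 ((p - r : ℕ) : ℤ) (by omega) (by omega)
        rw [ex_in t w (p - r) (by omega)] at h6
        rw [← h6, ← ex_in t w p hp]
        congr 1
        omega
      · exfalso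
        omega
  calc A.card ≤ (G ∪ (Icc (j + 2) n).biUnion fun r => (range r).biUnion fun ρ =>
        (S r).image (bld t n r ρ)).card := card_le_card hsub
    _ ≤ G.card + ((Icc (j + 2) n).biUnion fun r => (range r).biUnion fun ρ =>
        (S r).image (bld t n r ρ)).card := card_union_le _ _
    _ ≤ G.card + ∑ r ∈ Icc (j + 2) n, r * (S r).card := by
        refine Nat.add_le_add_left ?_ _
        refine card_biUnion_le.trans (sum_le_sum fun r _ => ?_)
        refine card_biUnion_le.trans ?_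
        calc ∑ ρ ∈ range r, ((S r).image (bld t n r ρ)).card ≤ ∑ _ρ ∈ range r, (S r).card :=
              sum_le_sum fun ρ _ => card_image_le
          _ = r * (S r).card := by rw [sum_const, card_range, smul_eq_mul]

end Pool.Agent.H93.PG
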