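import Pool.Agent.H93.PG.Cy

/-!
# Power-free shifts (`MP_32ebde_an`), exponents `≥ 2`: targets of the board `pgs_modules`

The paper proof is the page `H93_PG.md` of the team store.
-/

set_option autoImplicit false

open MeasureTheory Filter Topology Finset

namespace Pool.Agent.H93.PG

open Pool.Agent.H93.PF

/-! ### G: growth -/

/-- SUB: submultiplicative sequences. -/
def T_SUB : Prop := ∀ u : ℕ → ℝ, (∀ n, 1 ≤ u n) → (∀ i j, u (i + j) ≤ u i * u j) →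
  ∃ H : ℝ, 0 ≤ H ∧ (∀ n : ℕ, Real.exp (H * n) ≤ u n) ∧
    ∀ δ : ℝ, 0 < δ → ∃ C : ℝ, ∀ n : ℕ, u n ≤ C * Real.exp ((H + δ) * n)

/-- SPL: words with a factor in a given set. -/
def T_SPL : Prop := ∀ (d : ℕ) (m : ℕ → ℕ) (i j k : ℕ) (S : Finset (Fin j → Fin d)),
  ((FF d m (i + j + k)).filter fun w =>
    (fun x : Fin j => w ⟨i + x, by omega⟩) ∈ S).card ≤
    (FF d m i).card * S.card * (FF d m k).card

/-- GRW: growth of the number of the words. -/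
def T_GRW : Prop := ∀ (d : ℕ) (m : ℕ → ℕ), (∀ n, 1 ≤ (FF d m n).card) →
  ∃ H : ℝ, Gr d m H ∧ ∀ h : ℝ, (∀ n : ℕ, Real.exp (h * n) ≤ ((FF d m n).card : ℝ)) → h ≤ H

/-- TRA: a recursion. -/
def T_TRA : Prop := ∀ (A : ℕ → ℕ → ℝ) (G : ℕ → ℝ) (C γ : ℝ), 0 < γ → (∀ n j, 0 ≤ A n j) →
  (∀ n j, A n (j + 1) ≤ A n j) → (∀ n : ℕ, G n ≤ C * Real.exp (γ * n)) →
  (∀ n j : ℕ, A n j ≤ G n + ∑ r ∈ Icc (j + 2) n, (r : ℝ) * A (n - r) (j + 1)) →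
  ∃ C' : ℝ, ∀ n : ℕ, A n 0 ≤ C' * Real.exp (γ * n)

/-- TRM: the trimming (2.1). -/
def T_TRM : Prop := ∀ (d : ℕ) (m : ℕ → ℕ) (t : Tail d m)
  (P : (n : ℕ) → (Fin n → Fin d) → Prop),
  (∀ (n k : ℕ) (h : k ≤ n) (w : Fin n → Fin d), P n w → P k fun i => w ⟨i, by omega⟩) →
  ∀ n j : ℕ, AA t P n j ≤ G0 t P n + ∑ r ∈ Icc (j + 2) n, r * AA t P (n - r) (j + 1)

/-- LTR: many words can be continued by the tail on both sides (2.2). -/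
def T_LTR : Prop := ∀ (d : ℕ) (m : ℕ → ℕ) (t : Tail d m) (H : ℝ), 0 < H →
  Rich H (fun n => (NN t n).card) → Rich H fun n => (PP t n).card

/-- TYP: typical words (2.3). -/
def T_TYP : Prop := ∀ (d : ℕ) (m : ℕ → ℕ) (t : Tail d m) (H : ℝ), Gr d m H → 0 < H →
  Rich H (fun n => (PP t n).card) → ∀ (η ε : ℝ) (n₀ : ℕ), 0 < η → η ≤ 1 / 10 → 0 < ε →
  ∃ n : ℕ, n₀ ≤ n ∧ Real.exp ((H - ε) * n) ≤ ((VV t ⌈η * n⌉₊ n).card : ℝ)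

/-- GRD: selection of pairs with different first and second coordinates. -/
def T_GRD : Prop := ∀ (α β : Type) [DecidableEq α] [DecidableEq β] (S : Finset (α × β))
  (a N : ℕ), (∀ x, (S.filter fun p => p.1 = x).card ≤ a) →
  (∀ y, (S.filter fun p => p.2 = y).card ≤ a) → 2 * N * a ≤ S.card → 0 < a →
  ∃ f : ℕ → α × β, (∀ i, i < N → f i ∈ S) ∧
    ∀ i j, i < N → j < N → ((f i).1 = (f j).1 ∨ (f i).2 = (f j).2) → i = j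

/-- COL: the colour classes (2.4). -/
def T_COL : Prop := ∀ (d : ℕ) (m : ℕ → ℕ) (t : Tail d m) (H : ℝ), Gr d m H → 0 < H →
  (∀ (η ε : ℝ) (n₀ : ℕ), 0 < η → η ≤ 1 / 10 → 0 < ε →
    ∃ n : ℕ, n₀ ≤ n ∧ Real.exp ((H - ε) * n) ≤ ((VV t ⌈η * n⌉₊ n).card : ℝ)) →
  ∀ h' : ℝ, h' < H → ∃ η₀ : ℝ, 0 < η₀ ∧ η₀ ≤ 1 / 10 ∧ ∀ η : ℝ, 0 < η → η ≤ η₀ →
    ∀ N n₀ : ℕ, ∃ n : ℕ, n₀ ≤ n ∧ ∃ (Q : ℕ) (pc : ℕ → ℕ → (Fin n → Fin d)),
      Real.exp (h' * n) ≤ Q ∧ CC t ⌈η * n⌉₊ n N Q pc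

/-! ### M: markers and tails -/

/-- MM2: bounds for the thresholds. -/
def T_MM2 : Prop := ∀ (β : ℝ) (plus : Bool) (q : ℕ), 0 < q →
  (2 ≤ β → 2 * q ≤ mm β plus q) ∧
  ((2 < β ∨ (2 ≤ β ∧ plus = true)) → 2 * q + 1 ≤ mm β plus q) ∧
  ((3 < β ∨ (3 ≤ β ∧ plus = true)) → 3 * q + 1 ≤ mm β plus q)

/-- TMB: basic facts on the Thue-Morse sequence. -/
def T_TMB : Prop := tm 0 = false ∧ (∀ n, tm (2 * n) = tm n) ∧ (∀ n, tm (2 * n + 1) = !tm n) ∧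
  (∀ e c i, i < 2 ^ e → tm (2 ^ e * c + i) = xor (tm c) (tm i)) ∧
  ∀ e i, i < 2 ^ e → tm (2 ^ e - 1 - i) = xor (tm i) (e % 2 == 1)

/-- TMO: it contains no overlaps. -/
def T_TMO : Prop := ∀ q i : ℕ, 0 < q → ∃ j, i ≤ j ∧ j ≤ i + q ∧ tm (j + q) ≠ tm j

/-- TMC: number of its factors. -/
def T_TMC : Prop := ∀ k, 0 < k →
  (Set.range fun (i : ℕ) (j : Fin k) => tm (i + (j : ℕ))).ncard ≤ 8 * k

/-- VTM: the ternary sequence contains no squares. -/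
def T_VTM : Prop := ∀ q i : ℕ, 0 < q → ∃ j, i ≤ j ∧ j < i + q ∧ vt (j + q) ≠ vt j

/-- TA3: tails, at least three letters, overlaps are forbidden. -/
def T_TA3 : Prop := ∀ (d : ℕ) (m : ℕ → ℕ), 3 ≤ d → (∀ q, 0 < q → 2 * q + 1 ≤ m q) →
  ∃ c : CT d m, c.t.Y = 1

/-- TA4: tails, at least four letters, squares are forbidden. -/
def T_TA4 : Prop := ∀ (d : ℕ) (m : ℕ → ℕ), 4 ≤ d → (∀ q, 0 < q → 2 * q ≤ m q) →
  ∃ c : CT d m, c.t.Y = 1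

/-- TA2: tails, two letters. -/
def T_TA2 : Prop := ∀ m : ℕ → ℕ, (∀ q, 0 < q → 3 * q + 1 ≤ m q) → ∃ c : CT 2 m, c.t.Y = 3

/-- SA1: many words start and end with a given letter (3.1). -/
def T_SA1 : Prop := ∀ (d : ℕ) (m : ℕ → ℕ) (t : Tail d m) (H : ℝ), Gr d m H → 0 < H → t.Y = 1 →
  Rich H fun n => (NN t n).card

open Classical in
/-- words of two letters without forbidden repetitions and without cubes of letters -/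
noncomputable def EE (m : ℕ → ℕ) (n : ℕ) : Finset (Fin n → Fin 2) :=
  (FF 2 m n).filter fun w => ∀ (i : ℕ) (h : i + 2 < n),
    ¬ (w ⟨i, by omega⟩ = w ⟨i + 1, by omega⟩ ∧ w ⟨i + 1, by omega⟩ = w ⟨i + 2, h⟩)

/-- SA2A: many words start and end with `eee`, if there are few words without cubes (3.2). -/
def T_SA2A : Prop := ∀ (m : ℕ → ℕ) (c : CT 2 m) (H H' C₁ : ℝ), Gr 2 m H → H' < H →
  c.t.Y = 3 → (∀ n : ℕ, ((EE m n).card : ℝ) ≤ C₁ * Real.exp (H' * n)) →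
  Rich H fun n => (NN c.t n).card

/-- SA2B: many words start and end with `eee`, if there are many words without cubes (3.3). -/
def T_SA2B : Prop := ∀ (m : ℕ → ℕ) (c : CT 2 m) (H : ℝ), (∀ q, 0 < q → 3 * q + 1 ≤ m q) →
  Gr 2 m H → c.t.Y = 3 → (∀ n : ℕ, Real.exp (H * n) ≤ ((EE m n).card : ℝ)) →
  Rich H fun n => (NN c.t n).card

/-- SA2: many words start and end with `eee`. -/
def T_SA2 : Prop := ∀ (m : ℕ → ℕ) (c : CT 2 m) (H : ℝ), (∀ q, 0 < q → 3 * q + 1 ≤ m q) →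
  Gr 2 m H → c.t.Y = 3 → Rich H fun n => (NN c.t n).card

/-! ### T: the tiles -/

/-- FRA: the frames (4.1). -/
def T_FRA : Prop := ∀ (d : ℕ) (m : ℕ → ℕ) (c : CT d m) (D : TD c) (B : Set ℤ)
  (z : ℤ → Fin d) (col : ℤ → ℕ), Tz D B z col → ∀ s ∈ B, ∀ g : ℕ, Nx B s g →
  Fr m z (s + 1) (s + g + c.t.Y - D.n + c.t.Y - 1) ∧
  ∀ x : ℤ, s < x → x < s + g + c.t.Y - D.n → (∀ i : ℕ, i < c.t.Y → z (x + i) = c.e) →
    g = D.L + 1 ∧ x = s + c.t.Y + D.k1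

/-- JJF: the contents with their neighbourhoods (4.2). -/
def T_JJF : Prop := ∀ (d : ℕ) (m : ℕ → ℕ) (c : CT d m) (D : TD c) (B : Set ℤ)
  (z : ℤ → Fin d) (col : ℤ → ℕ), Tz D B z col → ∀ s ∈ B, ∀ g : ℕ, Nx B s g →
  ∀ g' : ℕ, Nx B (s + g) g' → ∀ (q : ℕ) (x : ℤ), 0 < q →
  (if g = D.L then s + 1 else s + c.t.Y + D.k1 + 1) ≤ x →
  x + m q ≤ s + g + (if g' = D.L then 2 * c.t.Y + D.N0 - 1 else 2 * c.t.Y + D.k1 - 1 : ℤ) →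
  ∃ t : ℤ, x ≤ t ∧ t + q < x + m q ∧ z (t + q) ≠ z t

/-- OCL: marker words preceded by a piece of a frame (4.3). -/
def T_OCL : Prop := ∀ (d : ℕ) (m : ℕ → ℕ) (c : CT d m) (D : TD c) (B : Set ℤ)
  (z : ℤ → Fin d) (col : ℤ → ℕ), Tz D B z col → ∀ x : ℤ,
  (∀ i : ℕ, i < c.t.Y → z (x + i) = c.e) →
  ((∀ i : ℕ, i < D.K → z (x - 1 - i) = c.t.rt i) →
    ∃ s ∈ B, ∃ g : ℕ, Nx B s g ∧ x = s + g + c.t.Y - D.n) ∧
  ((∀ i : ℕ, i < D.K → z (x - 1 - i) = c.t.rt (D.k1 - 1 - i)) →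
    ∃ s ∈ B, Nx B s (D.L + 1) ∧ x = s + c.t.Y + D.k1)

/-- OCR: marker words followed by a piece of a frame (4.3). -/
def T_OCR : Prop := ∀ (d : ℕ) (m : ℕ → ℕ) (c : CT d m) (D : TD c) (B : Set ℤ)
  (z : ℤ → Fin d) (col : ℤ → ℕ), Tz D B z col → ∀ x : ℤ,
  (∀ i : ℕ, i < c.t.Y → z (x + i) = c.e) →
  ((∀ i : ℕ, i < D.K → z (x + c.t.Y + i) = c.t.rt i) → x ∈ B) ∧
  ((∀ i : ℕ, i < D.K → z (x + c.t.Y + i) = c.t.rt (D.k2 - 1 - i)) →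
    ∃ s ∈ B, Nx B s (D.L + 1) ∧ x = s + c.t.Y + D.k1)

/-- SMC: repetitions which contain a piece of a frame between two marker words (4.4). -/
def T_SMC : Prop := ∀ (d : ℕ) (m : ℕ → ℕ) (c : CT d m) (D : TD c) (B : Set ℤ)
  (z : ℤ → Fin d) (col : ℤ → ℕ), Tz D B z col → ∀ (q : ℕ) (a b x x' : ℤ), 0 < q → q < D.L →
  (∃ s ∈ B, (Nx B s D.L ∧ x = s ∧ x' = s + c.t.Y + D.N0) ∨
    (Nx B s (D.L + 1) ∧ ((x = s ∧ x' = s + c.t.Y + D.k1) ∨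
      (x = s + c.t.Y + D.k1 ∧ x' = s + c.t.Y + D.N0 + 1)))) →
  a ≤ x → x' + c.t.Y ≤ b → a + 2 * q ≤ b → ¬ ∀ t : ℤ, a ≤ t → t + q < b → z (t + q) = z t

/-- SM3: no forbidden repetitions with periods `< L` (4.5). -/
def T_SM3 : Prop := ∀ (d : ℕ) (m : ℕ → ℕ) (c : CT d m) (D : TD c) (B : Set ℤ)
  (z : ℤ → Fin d) (col : ℤ → ℕ), Tz D B z col → ∀ q : ℕ, 0 < q → q < D.L →
  ∀ i : ℤ, ∃ j : ℤ, i ≤ j ∧ j + q < i + m q ∧ z (j + q) ≠ z j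

/-- NEA: no forbidden repetitions with periods slightly larger (4.6). -/
def T_NEA : Prop := ∀ (d : ℕ) (m : ℕ → ℕ) (c : CT d m) (D : TD c) (B : Set ℤ)
  (z : ℤ → Fin d) (col : ℤ → ℕ), Tz D B z col →
  (∀ s ∈ B, ∀ g : ℕ, Nx B s g → col (s + g) ≠ col s) →
  ∀ q : ℕ, D.L ≤ q → q < D.L + D.kv →
  ∀ i : ℤ, ∃ j : ℤ, i ≤ j ∧ j + q < i + m q ∧ z (j + q) ≠ z j

/-- TZW: from the tiles to `Tz`. -/
def T_TZW : Prop := ∀ (d : ℕ) (m : ℕ → ℕ) (c : CT d m) (D : TD c) (B : Set ℤ)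
  (z : ℤ → Fin d) (col : ℤ → ℕ), TT D.N D.L D.Q D.W B z col → Tz D B z col

/-- TCW: the tiles `W` are good. -/
def T_TCW : Prop := ∀ (d : ℕ) (m : ℕ → ℕ) (c : CT d m) (D : TD c),
  ∃ tc : TC d m D.N, tc.L = D.L ∧ tc.Q = D.Q

/-- TCE: existence of good tiles. -/
def T_TCE : Prop := ∀ (d : ℕ) (m : ℕ → ℕ) (c : CT d m) (H : ℝ), Gr d m H → 0 < H →
  Rich H (fun n => (NN c.t n).card) → ∀ h' : ℝ, h' < H → ∀ N n₀ : ℕ,
  ∃ tc : TC d m N, n₀ ≤ tc.L ∧ Real.exp (h' * (tc.L + 1)) ≤ tc.Q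

/-- TCX: existence of good tiles for all the pairs `(d, β)`. -/
def T_TCX : Prop := ∀ (d : ℕ) (β : ℝ) (plus : Bool), Ok d β plus →
  0 < topEnt (PFS d β plus) → ∀ h' : ℝ, h' < topEnt (PFS d β plus) → ∀ N n₀ : ℕ,
  ∃ tc : TC d (mm β plus) N, n₀ ≤ tc.L ∧ Real.exp (h' * (tc.L + 1)) ≤ tc.Q

/-! ### S: the skeleton -/

/-- ADR: points with equal indices are far apart (5.1). -/
def T_ADR : Prop := ∀ (L : ℕ) (B : ℕ → Set ℤ) (c : ℤ → ℕ × ℕ) (I : ℕ → ℤ → ℕ), Sk L B c →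
  0 < L → IJ B I → ∀ (e C : ℕ) (s s' : ℤ), s ∈ B e → s' ∈ B e → s < s' →
  (∀ j, e ≤ j → j ≤ e + C → I j s = I j s') → s + 6 * nn L (e + C) ≤ s'

/-- IJB: bound for the indices. -/
def T_IJB : Prop := ∀ (L : ℕ) (B : ℕ → Set ℤ) (c : ℤ → ℕ × ℕ) (I : ℕ → ℤ → ℕ), Sk L B c →
  0 < L → IJ B I → ∀ (j : ℕ) (s : ℤ), I j s ≤ 39

/-- RCG: recognition of the levels (5.2). -/
def T_RCG : Prop := ∀ (L : ℕ) (B : ℕ → Set ℤ) (c : ℤ → ℕ × ℕ), Sk L B c → 0 < L →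
  ∀ (q : ℕ) (a b : ℤ), QI (B 0) q a b →
  (∀ j ∈ B 0, a ≤ j → j + q < b → c (j + q) = c j) → ∀ k, QI (B k) q a (b - sg L k)

/-- SKX: no long periodic intervals (5.3). -/
def T_SKX : Prop := ∀ (L : ℕ) (B : ℕ → Set ℤ) (c : ℤ → ℕ × ℕ) (I : ℕ → ℤ → ℕ), Sk L B c →
  0 < L → IJ B I → ∀ (kv q : ℕ) (a b : ℤ), 2 * kv ≤ L → L + kv ≤ q → QI (B 0) q a b →
  (∀ j ∈ B 0, a ≤ j → j + q < b → c (j + q) = c j ∧ I 0 (j + q) = I 0 j ∧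
    I 1 (j + q) = I 1 j ∧ ∀ e, j ∈ B e → j ∉ B (e + 1) → j + q ∈ B e → j + q ∉ B (e + 1) →
      ∀ i ≤ 2, I (e + i) (j + q) = I (e + i) j) →
  a + 2 * q + 1 ≤ b + kv → False

/-- PF3: tiled sequences with good colours are power-free (5.4). -/
def T_PF3 : Prop := ∀ (d : ℕ) (β : ℝ) (plus : Bool) (N : ℕ) (tc : TC d (mm β plus) N)
  (B : Set ℤ) (z : ℤ → Fin d) (col : ℤ → ℕ), 1 < β → TT N tc.L tc.Q tc.W B z col →
  (∀ s ∈ B, ∀ g : ℕ, Nx B s g → col (s + g) ≠ col s) →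
  (∀ (q : ℕ) (a b : ℤ), tc.L + tc.kv ≤ q → QI B q a b →
    (∀ j ∈ B, a ≤ j → j + q < b → col (j + q) = col j) → a + 2 * q + 1 ≤ b + tc.kv → False) →
  z ∈ PFS d β plus

/-! ### D: the dynamics -/

/-- IJD: the indices along an orbit. -/
def T_IJD : Prop := ∀ (Y : Type) [MeasurableSpace Y] (T : Y ≃ᵐ Y) (L : ℕ) (D : ℕ → Set Y),
  Mk T L D → ∀ y, Rc T D y →
    IJ (fun k => ob T (Bk T L D k) y) (fun j n => ij T L D j (zp T n y))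

/-- LVB: the exact level. -/
def T_LVB : Prop := ∀ (Y : Type) [MeasurableSpace Y] (T : Y ≃ᵐ Y) (L : ℕ) (D : ℕ → Set Y)
  (y : Y) (k : ℕ), y ∈ Bk T L D k → y ∉ Bk T L D (k + 1) → lv T L D y = k

/-- ME3: measurability of the colour. -/
def T_ME3 : Prop := ∀ (Y : Type) [MeasurableSpace Y] (T : Y ≃ᵐ Y) (L : ℕ) (D : ℕ → Set Y),
  (∀ k, MeasurableSet (D k)) → Measurable (cc T L D)

/-- CCD: decoding of the colour. -/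
def T_CCD : Prop := ∀ (Y : Type) [MeasurableSpace Y] (T : Y ≃ᵐ Y) (L : ℕ) (D : ℕ → Set Y)
  (y y' : Y), cc T L D y < NC ∧ (cc T L D y = cc T L D y' →
    co T L D y = co T L D y' ∧ min (ij T L D 0 y) 39 = min (ij T L D 0 y') 39 ∧
    min (ij T L D 1 y) 39 = min (ij T L D 1 y') 39 ∧
    ∀ i ≤ 2, min (ij T L D (lv T L D y + i) y) 39 = min (ij T L D (lv T L D y' + i) y') 39)

/-- NLP: no long periodic intervals along an orbit; neighbours have different colours. -/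
def T_NLP : Prop := ∀ (Y : Type) [MeasurableSpace Y] (T : Y ≃ᵐ Y) (L : ℕ) (D : ℕ → Set Y),
  Mk T L D → ∀ y, Rc T D y →
  (∀ s ∈ ob T (Bk T L D 0) y, ∀ g : ℕ, Nx (ob T (Bk T L D 0) y) s g →
    cc T L D (zp T (s + g) y) ≠ cc T L D (zp T s y)) ∧
  ∀ (kv q : ℕ) (a b : ℤ), 2 * kv ≤ L → L + kv ≤ q → QI (ob T (Bk T L D 0) y) q a b →
    (∀ j ∈ ob T (Bk T L D 0) y, a ≤ j → j + q < b →
      cc T L D (zp T (j + q) y) = cc T L D (zp T j y)) → a + 2 * q + 1 ≤ b + kv → False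

/-- ZM3: the coding is measurable. -/
def T_ZM3 : Prop := ∀ (Y : Type) [MeasurableSpace Y] (T : Y ≃ᵐ Y) (d : ℕ) (m : ℕ → ℕ)
  (c : Cy T d m), Measurable c.z0

/-- ZT3: the coded sequences are tiled. -/
def T_ZT3 : Prop := ∀ (Y : Type) [MeasurableSpace Y] (T : Y ≃ᵐ Y) (d : ℕ) (m : ℕ → ℕ)
  (c : Cy T d m) (y : Y), Rc T c.D y →
  TT NC c.tc.L c.tc.Q c.tc.W (ob T c.B0 y) (c.phi y) (fun n => c.cl (zp T n y)) ∧
  ∀ s ∈ ob T c.B0 y, ∀ g : ℕ, Nx (ob T c.B0 y) s g →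
    win (c.phi y) s g = c.tc.W g (c.cl (zp T s y)) (c.ms (zp T s y)) ∧
    c.ms (zp T s y) < c.tc.Q ∧ c.cl (zp T s y) < NC

/-- ZP3: the coded sequences are power-free. -/
def T_ZP3 : Prop := ∀ (Y : Type) [MeasurableSpace Y] (T : Y ≃ᵐ Y) (d : ℕ) (β : ℝ)
  (plus : Bool) (c : Cy T d (mm β plus)) (y : Y), 1 < β → Rc T c.D y →
  c.phi y ∈ PFS d β plus

/-- ZI3: the coded sequences determine the tiles, the colours and the messages. -/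
def T_ZI3 : Prop := ∀ (Y : Type) [MeasurableSpace Y] (T : Y ≃ᵐ Y) (d : ℕ) (m : ℕ → ℕ)
  (c : Cy T d m) (y y' : Y), Rc T c.D y → Rc T c.D y' → c.phi y = c.phi y' → c.Ag y y'

/-- GT3: from the data of the coding to the isomorphism. -/
def T_GT3 : Prop := ∀ (d : ℕ) (β : ℝ) (plus : Bool) (Y : Type) [MeasurableSpace Y]
  [StandardBorelSpace Y] (ν : Measure Y) [IsProbabilityMeasure ν] (T : Y ≃ᵐ Y)
  (c : Cy T d (mm β plus)), Ergodic T ν → 1 < β → (∀ k, 0 < ν (c.D k)) →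
  (∀ y y', Rc T c.D y → Rc T c.D y' → c.Ag y y' → y = y') →
  ∃ μ : Measure (ℤ → Fin d), IsProbabilityMeasure μ ∧ MeasurePreserving sh μ μ ∧
    μ (PFS d β plus)ᶜ = 0 ∧ Isom ν T μ sh

/-- PA3: choice of the parameters. -/
def T_PA3 : Prop := ∀ (d : ℕ) (β : ℝ) (plus : Bool), Ok d β plus →
  ∀ (h' η : ℝ) (n₀ : ℕ), 0 ≤ h' → 0 < η → h' + 2 * η < topEnt (PFS d β plus) →
  ∃ (tc : TC d (mm β plus) NC) (Q₀ q : ℕ), n₀ ≤ tc.L ∧ Real.exp (η * tc.L) ≤ q ∧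
    Real.exp (h' * (tc.L + 1)) ≤ Q₀ ∧ 2 * q * (2 * Q₀) ≤ tc.Q

/-- CX3: existence of the data of the coding. -/
def T_CX3 : Prop := ∀ (Y : Type) [MeasurableSpace Y] [StandardBorelSpace Y] (ν : Measure Y)
  [IsProbabilityMeasure ν] (T : Y ≃ᵐ Y) (d : ℕ) (β : ℝ) (plus : Bool), Ergodic T ν →
  (∀ᵐ y ∂ν, ∀ n : ℕ, 0 < n → T^[n] y ≠ y) → Ok d β plus →
  ksEnt ν T < ((topEnt (PFS d β plus) : ℝ) : EReal) →
  ∃ c : Cy T d (mm β plus), (∀ k, 0 < ν (c.D k)) ∧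
    ∀ y y', Rc T c.D y → Rc T c.D y' → c.Ag y y' → y = y'

/-- FT3: the theorem. -/
def T_FT3 : Prop := ∀ (d : ℕ) (β : ℝ) (plus : Bool), Ok d β plus →
  ∀ (Y : Type) [MeasurableSpace Y] [StandardBorelSpace Y] (ν : Measure Y)
    [IsProbabilityMeasure ν] (T : Y ≃ᵐ Y), Ergodic T ν →
    (∀ᵐ y ∂ν, ∀ n : ℕ, 0 < n → T^[n] y ≠ y) →
    ksEnt ν T < ((topEnt (PFS d β plus) : ℝ) : EReal) →
    ∃ μ : Measure (ℤ → Fin d), IsProbabilityMeasure μ ∧ MeasurePreserving sh μ μ ∧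
      μ (PFS d β plus)ᶜ = 0 ∧ Isom ν T μ sh

end Pool.Agent.H93.PG
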